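import Pool.Agent.Helper47.RF.CoreGoals

/-!
# Project RF: packet C1 (closure properties of `Sm`)
-/

namespace Pool.Agent.Helper47.RF

open Finset

lemma Sm.c1_const (c : ℝ) : Sm (fun _ => c) := ⟨contDiffOn_const, fun _ _ _ => rfl⟩

lemma Sm.c1_add {f h : HH → ℝ} (hf : Sm f) (hh : Sm h) : Sm (fun x => f x + h x) :=
  ⟨hf.cd.add hh.cd, fun r x hr => by
    show f (r • x) + h (r • x) = f x + h x
    rw [hf.hom r x hr, hh.hom r x hr]⟩

lemma Sm.c1_sub {f h : HH → ℝ} (hf : Sm f) (hh : Sm h) : Sm (fun x => f x - h x) :=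
  ⟨hf.cd.sub hh.cd, fun r x hr => by
    show f (r • x) - h (r • x) = f x - h x
    rw [hf.hom r x hr, hh.hom r x hr]⟩

lemma Sm.c1_mul {f h : HH → ℝ} (hf : Sm f) (hh : Sm h) : Sm (fun x => f x * h x) :=
  ⟨hf.cd.mul hh.cd, fun r x hr => by
    show f (r • x) * h (r • x) = f x * h x
    rw [hf.hom r x hr, hh.hom r x hr]⟩

lemma Sm.c1_neg {f : HH → ℝ} (hf : Sm f) : Sm (fun x => - f x) :=
  ⟨hf.cd.neg, fun r x hr => by
    show - f (r • x) = - f x
    rw [hf.hom r x hr]⟩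

lemma Sm.c1_sum {ι : Type} (s : Finset ι) (f : ι → HH → ℝ) (hf : ∀ a ∈ s, Sm (f a)) :
    Sm (fun x => ∑ a ∈ s, f a x) :=
  ⟨ContDiffOn.sum fun a ha => (hf a ha).cd, fun r x hr =>
    Finset.sum_congr rfl fun a ha => (hf a ha).hom r x hr⟩

lemma Sm.c1_comp {f : HH → ℝ} {F : ℝ → ℝ} {U : Set ℝ} (hF : ContDiffOn ℝ oo F U) (hf : Sm f)
    (hU : ∀ x, x ≠ 0 → f x ∈ U) : Sm (fun x => F (f x)) :=
  ⟨hF.comp hf.cd fun x hx => hU x hx, fun r x hr => by
    show F (f (r • x)) = F (f x)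
    rw [hf.hom r x hr]⟩

lemma Sm.c1_contDiffAt {f : HH → ℝ} (hf : Sm f) {x : HH} (hx : x ≠ 0) : ContDiffAt ℝ oo f x :=
  hf.cd.contDiffAt (isOpen_compl_singleton.mem_nhds hx)

lemma Sm.c1_differentiableAt {f : HH → ℝ} (hf : Sm f) {x : HH} (hx : x ≠ 0) :
    DifferentiableAt ℝ f x :=
  (hf.c1_contDiffAt hx).differentiableAt (by simp)

lemma Sm.c1_fderiv_smul {f : HH → ℝ} (hf : Sm f) {r : ℝ} (hr : 0 < r) {x : HH} (hx : x ≠ 0) (v : HH) :
    fderiv ℝ f (r • x) (r • v) = fderiv ℝ f x v := by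
  have hrx : r • x ≠ 0 := smul_ne_zero hr.ne' hx
  have h1 : HasFDerivAt (fun y : HH => f (r • y))
      ((fderiv ℝ f (r • x)).comp (r • ContinuousLinearMap.id ℝ HH)) x := by
    have h2 : HasFDerivAt (fun y : HH => r • y) (r • ContinuousLinearMap.id ℝ HH) x :=
      (hasFDerivAt_id x).const_smul r
    exact (hf.c1_differentiableAt hrx).hasFDerivAt.comp x h2
  have h3 : (fun y : HH => f (r • y)) = f := funext fun y => hf.hom r y hr
  rw [h3] at h1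
  rw [h1.fderiv]
  simp

lemma Sm.c1_E {f : HH → ℝ} (hf : Sm f) (i : Fin 3) : Sm (E i f) := by
  refine ⟨?_, ?_⟩
  · have h1 : ContDiffOn ℝ oo (fderiv ℝ f) {0}ᶜ :=
      hf.cd.fderiv_of_isOpen isOpen_compl_singleton (by simp)
    have h2 : ContDiffOn ℝ oo (fun x : HH => x * qe i) {0}ᶜ :=
      (contDiff_id.mul contDiff_const).contDiffOn
    exact h1.clm_apply h2
  · intro r x hr
    show fderiv ℝ f (r • x) ((r • x) * qe i) = fderiv ℝ f x (x * qe i)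
    by_cases hx : x = 0
    · subst hx; simp
    · rw [smul_mul_assoc, hf.c1_fderiv_smul hr hx]

lemma Sm.c1_Ew {f : HH → ℝ} (hf : Sm f) (w : List (Fin 3)) : Sm (Ew w f) := by
  induction w with
  | nil => exact hf
  | cons i w ih => exact ih.c1_E i

theorem goal_C1 : Goal_C1 :=
  ⟨Sm.c1_const, fun _ _ hf hh => hf.c1_add hh, fun _ _ hf hh => hf.c1_sub hh,
    fun _ _ hf hh => hf.c1_mul hh, fun _ hf => hf.c1_neg, fun _ s f hf => Sm.c1_sum s f hf,
    fun _ _ _ _ hF hf hU => Sm.c1_comp hF hf hU, fun _ i hf => hf.c1_E i, fun _ w hf => hf.c1_Ew w⟩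

end Pool.Agent.Helper47.RF
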