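import Pool.Agent.Helper73.RF.GoalsD

/-!
# Project RF, packet DAX: the axioms of the basic algebra of `S³ × S³ × (0,T)`, from D1, ..., D5
-/

set_option autoImplicit false

open Finset Pool.Agent.Helper47.RF Pool.Agent.Helper73.RF

namespace Pool.Agent.Helper69.RF

/-- Packet DAX: assembly. -/
theorem dax (h1 : D1Stmt) (h2 : D2Stmt) (h3 : D3Stmt) (h4 : D4Stmt) (h5 : D5Stmt) : DaxStmt := by
  intro T
  obtain ⟨ext, cont, tt_ev, tt_D, tt_E, tt_U, tt_V, time, comp, chain⟩ := h1 T
  obtain ⟨EE, UU, VV, EU, EV, UV, DE, DU, DV⟩ := h2 T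
  obtain ⟨UR, VR, ER, DR, EX, UX, VX, DX, RRt, RtR, XtX, cross, UeV⟩ := h3 T
  exact
    { ext := ext
      cont := cont
      tt_ev := tt_ev
      tt_D := tt_D
      tt_E := tt_E
      tt_U := tt_U
      tt_V := tt_V
      time := time
      min := fun f z t hz c d => h4 T f z t hz c d
      comp := comp
      chain := chain
      fib := fun z n hn => h5 T z n hn
      EE := EE
      UU := UU
      VV := VV
      EU := EU
      EV := EV
      UV := UV
      DE := DE
      DU := DU
      DV := DV
      UR := UR
      VR := VR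
      ER := ER
      DR := DR
      EX := EX
      UX := UX
      VX := VX
      DX := DX
      RRt := RRt
      RtR := RtR
      XtX := XtX
      cross := cross
      UeV := UeV }

end Pool.Agent.Helper69.RF
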