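import Pool.Agent.Helper64.RF.GoalsD

/-!
# Project RF: packet D5-CRV
-/

open Quaternion

namespace Pool.Agent.Helper69.RF

open Pool.Agent.Helper64.RF

theorem exists_not_mem_span (p y : ℍ[ℝ]) : ∃ z : ℍ[ℝ], z ∉ Submodule.span ℝ ({p, y} : Set ℍ[ℝ]) := by
  by_contra hcon
  push Not at hcon
  have htop : Submodule.span ℝ ({p, y} : Set ℍ[ℝ]) = ⊤ := by
    rw [eq_top_iff]; intro z _; exact hcon z
  have h1 : Module.finrank ℝ (Submodule.span ℝ ({p, y} : Set ℍ[ℝ])) = 4 := by
    rw [htop, finrank_top, Quaternion.finrank_eq_four]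
  classical
  have h2 := finrank_span_finset_le_card (R := ℝ) ({p, y} : Finset ℍ[ℝ])
  have h3 : ((({p, y} : Finset ℍ[ℝ])) : Set ℍ[ℝ]) = {p, y} := by simp
  rw [h3] at h2
  have h4 : ({p, y} : Finset ℍ[ℝ]).card ≤ 2 := Finset.card_le_two
  have h5 : Set.finrank ℝ ({p, y} : Set ℍ[ℝ]) = 4 := h1
  omega

theorem met_nonneg {g : ℍ[ℝ] → W →L[ℝ] W →L[ℝ] ℝ} (hg : Met g) {x : ℍ[ℝ]} (hx : x ≠ 0) (a : W) :
    0 ≤ g x a a := by
  by_cases ha : a = 0
  · subst ha; simp
  · exact (hg.pos x hx a ha).le

theorem vel_continuous {c : ℝ → ℍ[ℝ]} (hc : C1 c) : Continuous (vel c) := by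
  have h1 : Continuous c := hc.1.continuous
  have h2 : Continuous (deriv c) := hc.1.continuous_deriv le_rfl
  have h3 : Continuous (fun t => (c t)⁻¹ * deriv c t) := (h1.inv₀ hc.2).mul h2
  exact imL.continuous.comp h3

theorem dens_continuous {g : ℍ[ℝ] → W →L[ℝ] W →L[ℝ] ℝ} (hg : Met g) {c : ℝ → ℍ[ℝ]} (hc : C1 c) :
    Continuous (fun t => g (c t) (vel c t) (vel c t)) := by
  have h1 : Continuous c := hc.1.continuous
  have h2 : Continuous (fun t => g (c t)) :=
    hg.smooth.continuousOn.comp_continuous h1 (fun t => hc.2 t)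
  exact (h2.clm_apply (vel_continuous hc)).clm_apply (vel_continuous hc)

theorem crv : CRV := by
  refine ⟨?_, ?_⟩
  · intro p y hp hy
    obtain ⟨z, hz⟩ := exists_not_mem_span p y
    refine ⟨fun t => (1 - t) • p + t • y + (t * (1 - t)) • z, ⟨by fun_prop, ?_⟩, by simp, by simp⟩
    intro t h0
    by_cases ht : t * (1 - t) = 0
    · rcases mul_eq_zero.mp ht with h | h
      · subst h
        apply hp
        simpa using h0
      · have h1 : t = 1 := by linarith
        subst h1
        apply hy
        simpa using h0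
    · apply hz
      have h1 : (t * (1 - t)) • z = -((1 - t) • p + t • y) := by
        rw [eq_neg_iff_add_eq_zero, add_comm]
        exact h0
      have h2 : z = (t * (1 - t))⁻¹ • (-((1 - t) • p + t • y)) := by
        rw [← h1, smul_smul, inv_mul_cancel₀ ht, one_smul]
      rw [h2]
      apply Submodule.smul_mem
      apply Submodule.neg_mem
      apply Submodule.add_mem
      · exact Submodule.smul_mem _ _ (Submodule.subset_span (by simp))
      · exact Submodule.smul_mem _ _ (Submodule.subset_span (by simp))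
  · intro g hg c hc t ht0 ht1
    have hct : C1 (fun s => c (t * s)) :=
      ⟨hc.1.comp (contDiff_const.mul contDiff_id), fun s => hc.2 _⟩
    refine ⟨hct, ?_⟩
    have hf := dens_continuous hg hc
    set f : ℝ → ℝ := fun s => g (c s) (vel c s) (vel c s) with hfdef
    have hf0 : ∀ s, 0 ≤ f s := fun s => met_nonneg hg (hc.2 s) _
    have hvel : ∀ s, vel (fun s => c (t * s)) s = t • vel c (t * s) := by
      intro s
      unfold vel
      rw [deriv_comp_mul_left]
      simp
    have hEn : En g (fun s => c (t * s)) = t ^ 2 * ∫ s in (0:ℝ)..1, f (t * s) := by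
      unfold En
      rw [← intervalIntegral.integral_const_mul]
      refine intervalIntegral.integral_congr fun s _ => ?_
      show g (c (t * s)) (vel (fun s => c (t * s)) s) (vel (fun s => c (t * s)) s)
        = t ^ 2 * g (c (t * s)) (vel c (t * s)) (vel c (t * s))
      rw [hvel]
      simp only [map_smul, ContinuousLinearMap.smul_apply, smul_eq_mul]
      ring
    have hEn' : En g c = ∫ s in (0:ℝ)..1, f s := rfl
    have hint : ∀ a b : ℝ, IntervalIntegrable f MeasureTheory.volume a b :=
      fun a b => hf.intervalIntegrable a b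
    rw [hEn, hEn']
    rcases ht0.eq_or_lt with h | h
    · subst h
      have : 0 ≤ ∫ s in (0:ℝ)..1, f s :=
        intervalIntegral.integral_nonneg zero_le_one fun s _ => hf0 s
      simpa using this
    · rw [intervalIntegral.integral_comp_mul_left _ h.ne']
      simp only [mul_zero, mul_one, smul_eq_mul]
      have h1 : 0 ≤ ∫ s in (0:ℝ)..t, f s := intervalIntegral.integral_nonneg h.le fun s _ => hf0 s
      have h2 : 0 ≤ ∫ s in t..1, f s := intervalIntegral.integral_nonneg ht1 fun s _ => hf0 s
      have h3 := intervalIntegral.integral_add_adjacent_intervals (hint 0 t) (hint t 1)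
      have h4 : t ^ 2 * (t⁻¹ * ∫ s in (0:ℝ)..t, f s) = t * ∫ s in (0:ℝ)..t, f s := by
        field_simp
      rw [h4, ← h3]
      nlinarith

end Pool.Agent.Helper69.RF
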